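import Pool.Agent.Helper63.PC.Limit

/-!
# From Gaussian weights of the label sums to `GoodProj`
-/

set_option autoImplicit false
set_option linter.unusedSectionVars false

namespace Pool.Agent.Helper63.PC

open Finset MvPolynomial Pool.Agent.Helper24.SQ Pool.Agent.Helper63.N3 Helper16.N3

section

variable {R Λ Cc : Type} [Fintype R] [Fintype Λ] [DecidableEq R] [DecidableEq Λ] {D : ℕ}

/-- The exponent of a matching. -/
def EE (lab : Λ → Fin D → ℕ) (S : Finset (R × Λ)) : ℤ :=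
  ∑ i, ((S.card : ℤ) * ∑ q ∈ S, (lab q.2 i : ℤ) ^ 2 - (∑ q ∈ S, (lab q.2 i : ℤ)) ^ 2)

theorem two_EE (lab : Λ → Fin D → ℕ) (S : Finset (R × Λ)) :
    2 * EE lab S = ∑ i, ∑ q : S, ∑ q' : S, ((lab q.1.2 i : ℤ) - (lab q'.1.2 i : ℤ)) ^ 2 := by
  unfold EE
  rw [mul_sum]
  refine sum_congr rfl fun i _ => ?_
  rw [lagrange (fun q : S => (lab q.1.2 i : ℤ)), Fintype.card_coe]
  rw [← sum_coe_sort S (fun q => (lab q.2 i : ℤ) ^ 2), ← sum_coe_sort S (fun q => (lab q.2 i : ℤ))]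

theorem EE_nonneg (lab : Λ → Fin D → ℕ) (S : Finset (R × Λ)) : 0 ≤ EE lab S := by
  have h := two_EE lab S
  have : 0 ≤ ∑ i, ∑ q : S, ∑ q' : S, ((lab q.1.2 i : ℤ) - (lab q'.1.2 i : ℤ)) ^ 2 :=
    sum_nonneg fun i _ => sum_nonneg fun x _ => sum_nonneg fun y _ => sq_nonneg _
  omega

theorem EE_eq_zero (lab : Λ → Fin D → ℕ) (hlab : Function.Injective lab) (S : Finset (R × Λ))
    (h : EE lab S = 0) {q q' : R × Λ} (hq : q ∈ S) (hq' : q' ∈ S) : q.2 = q'.2 := by
  have h1 := two_EE lab S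
  rw [h, mul_zero] at h1
  apply hlab
  funext i
  have h2 := (sum_eq_zero_iff_of_nonneg (fun i _ => sum_nonneg fun x _ => sum_nonneg fun y _ =>
    sq_nonneg _)).1 h1.symm i (mem_univ _)
  have h3 := (sum_eq_zero_iff_of_nonneg (fun x _ => sum_nonneg fun y _ =>
    sq_nonneg _)).1 h2 ⟨q, hq⟩ (mem_univ _)
  have h4 := (sum_eq_zero_iff_of_nonneg (fun y _ => sq_nonneg _)).1 h3 ⟨q', hq'⟩ (mem_univ _)
  have h5 := pow_eq_zero_iff (two_ne_zero) |>.1 h4
  simp only at h5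
  omega

/-- Gaussian weights of the label sums are realised by permanents of size `M`. -/
def ExpProj (M s : ℕ) (co : R → Λ → Cc) (lab : Λ → Fin D → ℕ) : Prop :=
  ∀ T : ℝ, 0 < T → ∃ (e : Fin M → Fin M → ℂ ⊕ (R × Λ)) (C₀ : ℂ), C₀ ≠ 0 ∧
    ∀ (A : Type) [CommRing A] [Algebra ℂ A] (Y : R × Λ → A),
      (Matrix.of fun i j => (e i j).elim (algebraMap ℂ A) Y).permanent =
        algebraMap ℂ A C₀ * ∑ S ∈ match' co s, algebraMap ℂ A
          ((Real.exp (T * ∑ i, (∑ q ∈ S, (lab q.2 i : ℝ)) ^ 2) : ℝ) : ℂ) * ∏ q ∈ S, Y q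

theorem goodProj_of_expProj {M s : ℕ} (co : R → Λ → Cc) (lab : Λ → Fin D → ℕ)
    (hlab : Function.Injective lab) (hs : 1 ≤ s) (h : ExpProj M s co lab) : GoodProj M s co := by
  intro ε hε
  obtain ⟨T, hT0, hTε⟩ : ∃ T : ℝ, 0 < T ∧ Real.exp (-T) < ε := by
    refine ⟨max 1 (-Real.log (ε / 2)), by positivity, ?_⟩
    calc Real.exp (-max 1 (-Real.log (ε / 2))) ≤ Real.exp (Real.log (ε / 2)) := by
          apply Real.exp_le_exp.2
          have := le_max_right (1 : ℝ) (-Real.log (ε / 2))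
          linarith
      _ = ε / 2 := Real.exp_log (by positivity)
      _ < ε := by linarith
  obtain ⟨e, C₀, hC₀, hE⟩ := h T hT0
  have hkey : ∀ S ∈ match' co s, ((Real.exp (T * ∑ i, (∑ q ∈ S, (lab q.2 i : ℝ)) ^ 2) : ℝ) : ℂ) *
      ∏ q ∈ S, ((Real.exp (-T * (s * ∑ i, (lab q.2 i : ℝ) ^ 2)) : ℝ) : ℂ) =
      ((Real.exp (-T * (EE lab S : ℝ)) : ℝ) : ℂ) := by
    intro S hS
    have hS' : S.card = s := ((mem_match _ _ _).1 hS).1
    rw [← Complex.ofReal_prod, ← Complex.ofReal_mul, ← Real.exp_sum, ← Real.exp_add]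
    congr 2
    unfold EE
    rw [← mul_sum, ← mul_sum, hS', sum_comm]
    push_cast
    rw [sum_sub_distrib, ← mul_sum]
    ring
  refine ⟨e, C₀, fun S => ((Real.exp (T * ∑ i, (∑ q ∈ S, (lab q.2 i : ℝ)) ^ 2) : ℝ) : ℂ),
    fun q => ((Real.exp (-T * (s * ∑ i, (lab q.2 i : ℝ) ^ 2)) : ℝ) : ℂ), hC₀, hE, ?_, ?_⟩
  · rintro S hS ⟨k, hk⟩
    rw [hkey S hS]
    have h0 : EE lab S = 0 := by
      unfold EE
      refine sum_eq_zero fun i _ => ?_
      have h1 : ∑ q ∈ S, (lab q.2 i : ℤ) ^ 2 = S.card * (lab k i : ℤ) ^ 2 := by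
        rw [← nsmul_eq_mul]
        exact Finset.sum_eq_card_nsmul fun q hq => by rw [hk q hq]
      have h2 : ∑ q ∈ S, (lab q.2 i : ℤ) = S.card * (lab k i : ℤ) := by
        rw [← nsmul_eq_mul]
        exact Finset.sum_eq_card_nsmul fun q hq => by rw [hk q hq]
      rw [h1, h2]
      ring
    rw [h0]
    simp
  · intro S hS hnc
    rw [hkey S hS, Complex.norm_real, Real.norm_eq_abs, Real.abs_exp]
    have h1 : EE lab S ≠ 0 := by
      intro h0
      apply hnc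
      obtain ⟨q₀, hq₀⟩ : S.Nonempty := card_pos.1 (by
        have := ((mem_match _ _ _).1 hS).1
        omega)
      exact ⟨q₀.2, fun q hq => EE_eq_zero lab hlab S h0 hq hq₀⟩
    have h2 : 1 ≤ EE lab S := by
      have := lt_of_le_of_ne (EE_nonneg lab S) (Ne.symm h1)
      omega
    have h3 : (1 : ℝ) ≤ (EE lab S : ℝ) := by exact_mod_cast h2
    refine lt_of_le_of_lt (Real.exp_le_exp.2 ?_) hTε
    nlinarith

end

/-! ### vector labels with `D` digits smaller than `M` -/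

/-- The positions. -/
def vco (D M : ℕ) (r : Fin D → Fin M) (k : Fin D → Fin M) : Fin D → Fin (2 * M) :=
  fun i => ⟨r i + k i, by have := (r i).2; have := (k i).2; omega⟩

theorem vco_inj (D M : ℕ) (k : Fin D → Fin M) : Function.Injective fun r => vco D M r k := by
  intro r r' h
  funext i
  have := congrArg Fin.val (congrFun h i)
  simp only [vco] at this
  exact Fin.ext (by omega)

/-- The counting inequality for vector labels. -/
theorem ineq_vec {D M P n m d : ℕ} (hM : M ^ D = 2 * d) (hd : 2 ≤ d)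
    (hE : ExpProj P (d + 1) (vco D M) (fun k i => ((k i : Fin M) : ℕ))) (hn : P ≤ n)
    (h : BorderRep n m) :
    (d.factorial : ℝ) ^ (2 * (2 * d - 1)) ≤
      (4 * Real.exp 1 * m / ((2 * d - 1) * (2 * d) + 2 : ℕ)) ^ ((2 * d - 1) * (2 * d) + 2) := by
  have hc : Fintype.card (Fin D → Fin M) = 2 * d := by
    rw [Fintype.card_fun, Fintype.card_fin, Fintype.card_fin, hM]
  have h1 := ineq (vco D M) (vco_inj D M) hd hc (by rw [hc]; omega)
    (goodProj_of_expProj (vco D M) (fun k i => ((k i : Fin M) : ℕ)) (by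
      intro k k' hk
      funext i
      exact Fin.ext (congrFun hk i)) (Nat.le_add_left 1 d) hE) hn h
  rw [hc] at h1
  exact h1

end Pool.Agent.Helper63.PC
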