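import Pool.Agent.Helper63.N3.Limit
import Pool.Agent.Helper16.N3.Top
import Pool.Agent.Helper40.CB.Crit0

/-!
# Limits of weighted sums of matchings and critical points (independent of the gadget)
-/

set_option autoImplicit false
set_option linter.unusedSectionVars false

namespace Pool.Agent.Helper63.PC

open Finset MvPolynomial Pool.Agent.Helper24.SQ Pool.Agent.Helper63.N3 Helper16.N3

/-- All labels are equal. -/
def Const {R Λ : Type} (S : Finset (R × Λ)) : Prop := ∃ k, ∀ q ∈ S, q.2 = k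

/-- Weighted sums of matchings, with weights tending to the indicator of the matchings with
constant label, are projections of the permanent of size `M`. -/
def GoodProj (M s : ℕ) {R Λ Cc : Type} [Fintype R] [Fintype Λ] (co : R → Λ → Cc) : Prop :=
  ∀ ε : ℝ, 0 < ε → ∃ (e : Fin M → Fin M → ℂ ⊕ (R × Λ)) (C₀ : ℂ) (w : Finset (R × Λ) → ℂ)
    (sc : R × Λ → ℂ), C₀ ≠ 0 ∧
      (∀ (A : Type) [CommRing A] [Algebra ℂ A] (Y : R × Λ → A),
        (Matrix.of fun i j => (e i j).elim (algebraMap ℂ A) Y).permanent =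
          algebraMap ℂ A C₀ * ∑ S ∈ match' co s, algebraMap ℂ A (w S) * ∏ q ∈ S, Y q) ∧
      (∀ S ∈ match' co s, Const S → w S * ∏ q ∈ S, sc q = 1) ∧
      (∀ S ∈ match' co s, ¬ Const S → ‖w S * ∏ q ∈ S, sc q‖ < ε)

theorem mem_match {R Λ C' : Type} [Fintype R] [Fintype Λ] (c : R → Λ → C') (s : ℕ)
    (S : Finset (R × Λ)) : S ∈ match' c s ↔ S.card = s ∧
      Set.InjOn Prod.fst (S : Set (R × Λ)) ∧
        Set.InjOn (fun q : R × Λ => c q.1 q.2) (S : Set (R × Λ)) := by
  unfold match'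
  simp only [Finset.mem_filter, Finset.mem_powersetCard, Finset.subset_univ, true_and]

section

variable {R Λ Cc : Type} [Fintype R] [Fintype Λ] [DecidableEq R] [DecidableEq Λ]

open Classical in
theorem sum_const (co : R → Λ → Cc) (hco : ∀ k, Function.Injective fun r => co r k) (s : ℕ)
    (hs : 1 ≤ s) {B : Type} [CommRing B] (V : R × Λ → B) :
    ∑ k : Λ, ∑ T ∈ powersetCard s (univ : Finset R), ∏ x ∈ T, V (x, k) =
      ∑ S ∈ match' co s, if Const S then ∏ q ∈ S, V q else 0 := by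
  rw [← sum_product']
  refine sum_of_injOn (fun q : Λ × Finset R => q.2.image fun x => (x, q.1)) ?_ ?_ ?_ ?_
  · rintro ⟨k, T⟩ hT ⟨k', T'⟩ hT' h
    simp only [coe_product, Set.mem_prod, mem_coe, mem_powersetCard] at hT hT'
    simp only at h
    obtain ⟨x, hx⟩ : T.Nonempty := card_pos.1 (by omega)
    have h1 : (x, k) ∈ T'.image fun x => (x, k') := by
      rw [← h]
      exact mem_image_of_mem _ hx
    rw [mem_image] at h1
    obtain ⟨y, _, hy⟩ := h1
    rw [Prod.mk.injEq] at hy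
    obtain ⟨_, rfl⟩ := hy
    congr 1
    exact image_injective (fun x y h => (Prod.mk.inj h).1) h
  · rintro ⟨k, T⟩ hT
    simp only [coe_product, Set.mem_prod, mem_coe, mem_powersetCard] at hT
    rw [mem_coe, mem_match]
    refine ⟨?_, ?_, ?_⟩
    · simp only
      rw [card_image_of_injective _ (fun x y h => (Prod.mk.inj h).1)]
      exact hT.2.2
    · rintro ⟨x, k₁⟩ h1 ⟨y, k₂⟩ h2 h
      rw [mem_coe, mem_image] at h1 h2
      obtain ⟨x', _, hx'⟩ := h1
      obtain ⟨y', _, hy'⟩ := h2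
      rw [Prod.mk.injEq] at hx' hy'
      simp only at h
      rw [← hx'.2, ← hy'.2, h]
    · rintro ⟨x, k₁⟩ h1 ⟨y, k₂⟩ h2 h
      rw [mem_coe, mem_image] at h1 h2
      obtain ⟨x', _, hx'⟩ := h1
      obtain ⟨y', _, hy'⟩ := h2
      rw [Prod.mk.injEq] at hx' hy'
      have h3 : k₁ = k₂ := by rw [← hx'.2, ← hy'.2]
      subst h3
      rw [Prod.mk.injEq]
      exact ⟨hco k₁ h, rfl⟩
  · intro S hS hS'
    rw [mem_match] at hS
    rw [if_neg]
    rintro ⟨k, hk⟩
    apply hS'
    refine ⟨(k, S.image Prod.fst), ?_, ?_⟩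
    · simp only [coe_product, Set.mem_prod, mem_coe, mem_powersetCard]
      refine ⟨mem_univ _, subset_univ _, ?_⟩
      rw [card_image_of_injOn hS.2.1]
      exact hS.1
    · ext ⟨x, k'⟩
      simp only [mem_image, Prod.mk.injEq]
      constructor
      · rintro ⟨y, ⟨q, hq, rfl⟩, rfl, rfl⟩
        rw [← hk q hq]
        exact hq
      · intro h
        exact ⟨x, ⟨(x, k'), h, rfl⟩, rfl, (hk _ h).symm⟩
  · rintro ⟨k, T⟩ hT
    rw [if_pos]
    · rw [prod_image fun x _ y _ h => (Prod.mk.inj h).1]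
    · refine ⟨k, ?_⟩
      intro q hq
      rw [mem_image] at hq
      obtain ⟨x, _, rfl⟩ := hq
      rfl

theorem limit {M s n m : ℕ} (co : R → Λ → Cc) (hco : ∀ k, Function.Injective fun r => co r k)
    (hs : 1 ≤ s) (hG : GoodProj M s co) (hn : M ≤ n) (h : BorderRep n m) {ι : Type} [Fintype ι]
    (V : R × Λ → MvPolynomial (Option ι) ℂ) (hV : ∀ q, (V q).totalDegree ≤ 1)
    (Z : Finset (Option ι → ℂ))
    (hZ : ∀ z ∈ Z, CritPt (∑ k : Λ, ∑ T ∈ powersetCard s (univ : Finset R), ∏ x ∈ T, V (x, k)) z) :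
    ∃ (P : MvPolynomial (Option ι) ℂ) (Z' : Finset (Option ι → ℂ)),
      DetRep P m ∧ Z'.card = Z.card ∧ ∀ z ∈ Z', CritPt P z := by
  classical
  let κ : Type := {S // S ∈ match' co s}
  obtain ⟨ε, hε, H⟩ := crit_persist
    (∑ k : Λ, ∑ T ∈ powersetCard s (univ : Finset R), ∏ x ∈ T, V (x, k))
    (fun q : κ => ∏ q ∈ q.1, V q) Z hZ
  obtain ⟨e, c, w, sc, hc, hE, hw1, hw2⟩ := hG ε hε
  obtain ⟨Z₁, hZ₁, hcrit₁⟩ := H (fun q => if Const q.1 then 0 else w q.1 * ∏ q ∈ q.1, sc q) (by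
      intro q
      split_ifs with h0
      · simpa using hε
      · exact hw2 q.1 q.2 h0)
  set f : Fin M × Fin M → MvPolynomial (Option ι) ℂ := fun q =>
    (e q.1 q.2).elim (algebraMap ℂ _) (fun q => C (sc q) * V q) with hf
  have hfd : ∀ q, (f q).totalDegree ≤ 1 := by
    intro q
    simp only [hf]
    rcases e q.1 q.2 with v | q'
    · simp only [Sum.elim_inl, algebraMap_eq, totalDegree_C, zero_le]
    · simp only [Sum.elim_inr]
      refine (totalDegree_mul _ _).trans ?_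
      rw [totalDegree_C, zero_add]
      exact hV _
  have hF : aeval f (permPoly M) = C c *
      (∑ k : Λ, ∑ T ∈ powersetCard s (univ : Finset R), ∏ x ∈ T, V (x, k) + ∑ q : κ,
      (if Const q.1 then 0 else w q.1 * ∏ q ∈ q.1, sc q) • ∏ q ∈ q.1, V q) := by
    rw [aeval_permPoly]
    refine (hE (MvPolynomial (Option ι) ℂ) (fun q => C (sc q) * V q)).trans ?_
    rw [algebraMap_eq]
    congr 1
    rw [Finset.sum_coe_sort (match' co s) (fun S =>
      (if Const S then 0 else w S * ∏ q ∈ S, sc q) • ∏ q ∈ S, V q)]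
    rw [sum_const co hco s hs, ← sum_add_distrib]
    refine sum_congr rfl fun S hS => ?_
    rw [prod_mul_distrib, ← map_prod C, ← mul_assoc, ← C_mul]
    split_ifs with h0
    · rw [hw1 S hS h0, C_1, one_mul, zero_smul, add_zero]
    · rw [zero_add, smul_eq_C_mul]
  obtain ⟨P, Z', hP, hZ', hcrit'⟩ := exists_crit_near (h.mono_left hn) f hfd Z₁ (by
    intro z hz
    rw [hF]
    exact critPt_smul _ c hc z (hcrit₁ z hz))
  exact ⟨P, Z', hP, hZ'.trans hZ₁, hcrit'⟩

/-! ### the critical points -/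

/-- The linear part of the limit polynomial. -/
noncomputable def ell (d : ℕ) (Z R : Type) [Fintype Z] [Fintype R] :
    MvPolynomial (Option (Z × R)) ℂ :=
  X none + ∑ z : Z, C ((-1 : ℂ) ^ d) * ∑ l : R, X (some (z, l))

theorem ell_totalDegree (d : ℕ) (Z R : Type) [Fintype Z] [Fintype R] :
    (ell d Z R).totalDegree ≤ 1 := by
  unfold ell
  refine (totalDegree_add _ _).trans (max_le ?_ ?_)
  · rw [totalDegree_X]
  · refine totalDegree_finsetSum_le fun z _ => ?_
    refine (totalDegree_mul _ _).trans ?_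
    rw [totalDegree_C, zero_add]
    refine totalDegree_finsetSum_le fun l _ => ?_
    rw [totalDegree_X]

/-- The entries: one class is used for the variable `none`. -/
noncomputable def VV (d : ℕ) (k₀ : Λ) (x₀ : R) (T₀ : Finset R) (q : R × Λ) :
    MvPolynomial (Option ({k : Λ // k ≠ k₀} × R)) ℂ :=
  if h : q.2 = k₀ then (if q.1 = x₀ then ell d _ R else if q.1 ∈ T₀ then 1 else 0)
    else X (some (⟨q.2, h⟩, q.1))

theorem VV_totalDegree (d : ℕ) (k₀ : Λ) (x₀ : R) (T₀ : Finset R) (q : R × Λ) :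
    (VV d k₀ x₀ T₀ q).totalDegree ≤ 1 := by
  unfold VV
  split_ifs
  · exact ell_totalDegree _ _ _
  · simp
  · simp
  · rw [totalDegree_X]

theorem sum_VV (d : ℕ) (k₀ : Λ) (x₀ : R) (T₀ : Finset R) (hx : x₀ ∉ T₀) (hT : T₀.card = d) :
    ∑ k : Λ, ∑ T ∈ powersetCard (d + 1) (univ : Finset R), ∏ x ∈ T, VV d k₀ x₀ T₀ (x, k) =
      Pool.Agent.Helper40.CB.F0 ℂ d {k : Λ // k ≠ k₀} R := by
  classical
  rw [Fintype.sum_eq_add_sum_subtype_ne _ k₀]
  have h1 : ∑ T ∈ powersetCard (d + 1) (univ : Finset R), ∏ x ∈ T, VV d k₀ x₀ T₀ (x, k₀) =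
      ell d {k : Λ // k ≠ k₀} R := by
    have hc : (insert x₀ T₀).card = d + 1 := by rw [card_insert_of_notMem hx, hT]
    rw [sum_eq_single (insert x₀ T₀)]
    · rw [prod_insert hx]
      have h2 : ∀ x ∈ T₀, VV d k₀ x₀ T₀ (x, k₀) = 1 := by
        intro x hx'
        unfold VV
        rw [dif_pos rfl, if_neg, if_pos hx']
        rintro rfl
        exact hx hx'
      rw [prod_congr rfl h2, prod_const_one, mul_one]
      unfold VV
      rw [dif_pos rfl, if_pos rfl]
    · intro T hT' hne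
      rw [mem_powersetCard] at hT'
      obtain ⟨x, hx1, hx2⟩ : ∃ x ∈ T, x ∉ insert x₀ T₀ := by
        by_contra hcon
        push Not at hcon
        exact hne (eq_of_subset_of_card_le hcon (by rw [hc, hT'.2]))
      rw [mem_insert, not_or] at hx2
      apply prod_eq_zero hx1
      unfold VV
      rw [dif_pos rfl, if_neg hx2.1, if_neg hx2.2]
    · intro h
      exact absurd (mem_powersetCard.2 ⟨subset_univ _, hc⟩) h
  rw [h1]
  unfold Pool.Agent.Helper40.CB.F0 ell
  rw [add_assoc, ← sum_add_distrib]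
  congr 1
  refine sum_congr rfl fun k _ => ?_
  rw [add_comm]
  congr 1
  refine sum_congr rfl fun T _ => prod_congr rfl fun x _ => ?_
  unfold VV
  rw [dif_neg k.2]

/-- The counting inequality. -/
theorem ineq {M n m d : ℕ} (co : R → Λ → Cc) (hco : ∀ k, Function.Injective fun r => co r k)
    (hd : 2 ≤ d) (hR : Fintype.card R = 2 * d) (hΛ : 1 ≤ Fintype.card Λ)
    (hG : GoodProj M (d + 1) co) (hn : M ≤ n) (h : BorderRep n m) :
    (d.factorial : ℝ) ^ (2 * (Fintype.card Λ - 1)) ≤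
      (4 * Real.exp 1 * m / ((Fintype.card Λ - 1) * (2 * d) + 2 : ℕ)) ^
        ((Fintype.card Λ - 1) * (2 * d) + 2) := by
  classical
  obtain ⟨k₀⟩ : Nonempty Λ := Fintype.card_pos_iff.1 (by omega)
  obtain ⟨T₁, _, hT₁⟩ := exists_subset_card_eq (s := (univ : Finset R)) (n := d + 1)
    (by rw [card_univ, hR]; omega)
  obtain ⟨x₀, hx₀⟩ : T₁.Nonempty := card_pos.1 (by omega)
  obtain ⟨Z, hZ, hcard⟩ := Pool.Agent.Helper40.CB.exists_crit0 (K := ℂ) (Z := {k : Λ // k ≠ k₀})
    (J := R) hR hd (by exact_mod_cast (by omega : d ≠ 0))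
    (Complex.isPrimitiveRoot_exp d (by omega))
  obtain ⟨P, Z', hP, hZ', hcrit⟩ := limit co hco (Nat.le_add_left 1 d) hG hn h
    (VV d k₀ x₀ (T₁.erase x₀)) (VV_totalDegree d k₀ x₀ (T₁.erase x₀)) Z (by
      intro z hz
      rw [sum_VV d k₀ x₀ (T₁.erase x₀) (notMem_erase _ _) (by rw [card_erase_of_mem hx₀]; omega)]
      exact hZ z hz)
  have hb := crit_bound m P hP Z' hcrit
  have hcΛ : Fintype.card {k : Λ // k ≠ k₀} = Fintype.card Λ - 1 := by
    rw [Fintype.card_subtype_compl, Fintype.card_subtype_eq]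
  rw [hZ', hcard, Fintype.card_prod, hcΛ, hR] at hb
  push_cast at hb ⊢
  exact hb

end

end Pool.Agent.Helper63.PC
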